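import Mathlib

/-!
# Sample complexity of testing `H`-freeness of edge distributions

For every finite simple graph `H` with at least two edges and every `ε ∈ (0, 1)` the number of
labelled samples needed to test `H`-freeness in the distribution-free sample-based model is at most
`C * ex(n, H) ^ (1 - 1 / e(H))`, where `C` depends on `H` and `ε` only.

Sketch. Let `t = e(H)`, `k = ex(n, H)` and let `f` be `ε`-far from `H`-free with respect to `μ`. Take
a large sample of `M = O_ε(k)` points. With probability at least `9 / 10` it contains `s = Ω_ε(k)`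
pairwise disjoint `t`-sets of indices, each of which carries the edges of a copy of `H`. Indeed,
otherwise, after the removal of fewer than `s t` indices the positive examples form an `H`-free
graph, which is determined by a set `I` of at most `k` indices; few of the other sample points lie
in the region, of measure at least `ε`, where `f` differs from this graph. For a fixed `I` the
probability of this is exponentially small, and the union bound over `I` costs only `2 ^ (O_ε(k))`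
(this is a compression argument). Now keep every index with probability `p`, where
`s p ^ t = 20`. By the second moment method a copy of `H` survives with probability `19 / 20`, and
the expected number of indices that are kept is `p M = O(k ^ (1 - 1 / t))`. So that many samples
contain a copy of `H` with probability at least `2 / 3`, and the tester which rejects iff it sees a
copy of `H` has one-sided error.
-/

set_option autoImplicit false
set_option linter.unusedSectionVars false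
set_option linter.unusedVariables false

namespace Pool.Agent.Results.MP_c13ef9_lc.FreenessSamples

open Finset

section Weights

variable {Λ : Type} [Fintype Λ]

/-- The probability of the sequence `x` of independent samples from `μ`. -/
noncomputable def wt (μ : Λ → ℝ) {κ : Type} [Fintype κ] (x : κ → Λ) : ℝ := ∏ j, μ (x j)

lemma wt_nonneg {μ : Λ → ℝ} (h0 : ∀ a, 0 ≤ μ a) {κ : Type} [Fintype κ] (x : κ → Λ) :
    0 ≤ wt μ x := prod_nonneg fun j _ => h0 _

lemma sum_prod (κ : Type) [Fintype κ] [DecidableEq κ] (φ : Λ → ℝ) :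
    ∑ x : κ → Λ, ∏ j, φ (x j) = (∑ a, φ a) ^ Fintype.card κ := by
  classical
  have h := Finset.prod_univ_sum (fun _ : κ => (univ : Finset Λ)) (fun _ a => φ a)
  rw [Fintype.piFinset_univ] at h
  rw [← h, prod_const, card_univ]

lemma sum_wt {μ : Λ → ℝ} (h1 : ∑ a, μ a = 1) (κ : Type) [Fintype κ] [DecidableEq κ] :
    ∑ x : κ → Λ, wt μ x = 1 := by
  unfold wt
  rw [sum_prod, h1, one_pow]

/-- glue two partial sequences -/
def glue {ι : Type} (p : ι → Prop) [DecidablePred p] (u : {i // p i} → Λ)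
    (v : {i // ¬ p i} → Λ) : ι → Λ := fun i => if h : p i then u ⟨i, h⟩ else v ⟨i, h⟩

lemma sum_split {ι : Type} [Fintype ι] [DecidableEq ι] (p : ι → Prop) [DecidablePred p]
    (G : (ι → Λ) → ℝ) :
    ∑ x, G x = ∑ u : {i // p i} → Λ, ∑ v : {i // ¬ p i} → Λ, G (glue p u v) := by
  classical
  rw [← (Equiv.piEquivPiSubtypeProd p (fun _ => Λ)).symm.sum_comp G, Fintype.sum_prod_type]
  rfl

lemma wt_glue {ι : Type} [Fintype ι] [DecidableEq ι] (p : ι → Prop) [DecidablePred p]
    (μ : Λ → ℝ) (u : {i // p i} → Λ) (v : {i // ¬ p i} → Λ) :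
    wt μ (glue p u v) = wt μ u * wt μ v := by
  classical
  unfold wt
  rw [← Fintype.prod_subtype_mul_prod_subtype p]
  congr 1
  · refine Fintype.prod_congr _ _ fun i => ?_
    simp [glue, i.2]
  · refine Fintype.prod_congr _ _ fun i => ?_
    simp [glue, i.2]

lemma marg_aux {μ : Λ → ℝ} (h1 : ∑ a, μ a = 1) {κ ι : Type} [Fintype κ] [Fintype ι]
    [DecidableEq κ] [DecidableEq ι] (p : ι → Prop) [DecidablePred p] (E : κ ≃ {i // p i})
    (g : (κ → Λ) → ℝ) :
    ∑ x : ι → Λ, wt μ x * g (fun j => x (E j).1) = ∑ y : κ → Λ, wt μ y * g y := by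
  rw [sum_split p]
  have h2 : ∀ (u : {i // p i} → Λ) (v : {i // ¬ p i} → Λ),
      wt μ (glue p u v) * g (fun j => glue p u v (E j).1) =
        wt μ v * (wt μ u * g (fun j => u (E j))) := by
    intro u v
    rw [wt_glue]
    have : (fun j => glue p u v (E j).1) = fun j => u (E j) := by
      funext j
      simp [glue, (E j).2]
    rw [this]
    ring_nf
  simp only [h2, ← sum_mul, sum_wt h1, one_mul]
  rw [← (E.arrowCongr (Equiv.refl Λ)).sum_comp]
  refine sum_congr rfl fun y _ => ?_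
  congr 1
  · unfold wt
    rw [← E.prod_comp]
    refine Fintype.prod_congr _ _ fun j => ?_
    simp
  · congr 1
    funext j
    simp

/-- A part of a sequence of independent samples is a sequence of independent samples. -/
lemma marg {μ : Λ → ℝ} (h1 : ∑ a, μ a = 1) {κ ι : Type} [Fintype κ] [Fintype ι]
    [DecidableEq κ] [DecidableEq ι] (e : κ ↪ ι)
    (g : (κ → Λ) → ℝ) : ∑ x : ι → Λ, wt μ x * g (x ∘ e) = ∑ y : κ → Λ, wt μ y * g y := by
  classical
  let E : κ ≃ {i // ∃ j, e j = i} := Equiv.ofBijective (fun j => ⟨e j, j, rfl⟩)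
    ⟨fun a b h => e.injective (congrArg Subtype.val h), fun ⟨i, j, hj⟩ => ⟨j, Subtype.ext hj⟩⟩
  exact marg_aux h1 _ E g

end Weights

section Bernoulli

variable {ι : Type} [Fintype ι] [DecidableEq ι]

/-- The probability that the random set is `S`, if every index is included with probability `p`. -/
noncomputable def bw (p : ℝ) (S : Finset ι) : ℝ := p ^ #S * (1 - p) ^ #Sᶜ

lemma bw_nonneg {p : ℝ} (h0 : 0 ≤ p) (h1 : p ≤ 1) (S : Finset ι) : 0 ≤ bw p S :=
  mul_nonneg (pow_nonneg h0 _) (pow_nonneg (by linarith) _)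

lemma sum_bw_superset (p : ℝ) (J : Finset ι) :
    ∑ S : Finset ι, (if J ⊆ S then bw p S else 0) = p ^ #J := by
  have h := Finset.prod_add (fun _ : ι => p) (fun i => if i ∈ J then 0 else 1 - p) univ
  have h1 : ∏ i : ι, (p + (if i ∈ J then 0 else 1 - p)) = p ^ #J := by
    have : ∀ i : ι, (p + (if i ∈ J then 0 else 1 - p)) = if i ∈ J then p else 1 := by
      intro i; split_ifs <;> ring
    simp only [this]
    rw [prod_ite, prod_const, prod_const_one, mul_one]
    congr 2
    ext i; simp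
  rw [h1] at h
  rw [h, powerset_univ]
  refine sum_congr rfl fun S _ => ?_
  rw [prod_const]
  split_ifs with hJ
  · unfold bw
    congr 1
    rw [← compl_eq_univ_sdiff]
    rw [← prod_const]
    refine prod_congr rfl fun i hi => ?_
    rw [if_neg]
    intro hiJ
    exact (mem_compl.1 hi) (hJ hiJ)
  · obtain ⟨i, hiJ, hiS⟩ := not_subset.1 hJ
    rw [prod_eq_zero (i := i) (by simp [hiS]) (by simp [hiJ]), mul_zero]

lemma sum_bw (p : ℝ) : ∑ S : Finset ι, bw p S = 1 := by
  have := sum_bw_superset p (∅ : Finset ι)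
  simpa using this

lemma sum_bw_card (p : ℝ) : ∑ S : Finset ι, bw p S * #S = p * Fintype.card ι := by
  have h : ∀ S : Finset ι, bw p S * #S = ∑ i : ι, if {i} ⊆ S then bw p S else 0 := by
    intro S
    rw [← sum_filter, sum_const, nsmul_eq_mul, mul_comm]
    congr 3
    ext i; simp
  simp only [h]
  rw [sum_comm]
  simp only [sum_bw_superset, card_singleton, pow_one, sum_const, card_univ, nsmul_eq_mul]
  ring

open Classical in
/-- Second moment: some member of a disjoint family of `t`-sets is contained in the random set. -/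
lemma second_moment {p : ℝ} (h0 : 0 < p) (h1 : p ≤ 1) (t : ℕ) (𝒥 : Finset (Finset ι))
    (hJ : ∀ J ∈ 𝒥, #J = t) (hd : (𝒥 : Set (Finset ι)).PairwiseDisjoint id) (h𝒥 : 0 < #𝒥) :
    1 - 1 / (#𝒥 * p ^ t) ≤ ∑ S : Finset ι, bw p S * (if ∃ J ∈ 𝒥, J ⊆ S then 1 else 0) := by
  set l : ℝ := #𝒥 * p ^ t with hl
  have hl0 : 0 < l := by
    rw [hl]
    have : (0 : ℝ) < #𝒥 := by exact_mod_cast h𝒥
    positivity
  let X : Finset ι → ℝ := fun S => ∑ J ∈ 𝒥, if J ⊆ S then 1 else 0
  have e1 : ∑ S : Finset ι, bw p S * X S = l := by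
    simp only [X, mul_sum]
    rw [sum_comm]
    have : ∀ J ∈ 𝒥, ∑ S : Finset ι, bw p S * (if J ⊆ S then (1 : ℝ) else 0) = p ^ t := by
      intro J hJ'
      rw [← hJ J hJ', ← sum_bw_superset p J]
      refine sum_congr rfl fun S _ => ?_
      split_ifs <;> simp
    rw [sum_congr rfl this, sum_const, nsmul_eq_mul]
  have e2 : ∑ S : Finset ι, bw p S * X S ^ 2 ≤ l + l ^ 2 := by
    have h2 : ∀ S : Finset ι, bw p S * X S ^ 2 =
        ∑ J ∈ 𝒥, ∑ J' ∈ 𝒥, if J ∪ J' ⊆ S then bw p S else 0 := by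
      intro S
      simp only [X]
      rw [sq, sum_mul_sum, mul_sum]
      refine sum_congr rfl fun J _ => ?_
      rw [mul_sum]
      refine sum_congr rfl fun J' _ => ?_
      by_cases a : J ⊆ S <;> by_cases b : J' ⊆ S <;> simp [a, b, union_subset_iff]
    simp only [h2]
    rw [sum_comm]
    simp only [sum_comm (s := univ) (t := 𝒥)]
    simp only [sum_bw_superset]
    have h3 : ∀ J ∈ 𝒥, ∀ J' ∈ 𝒥, p ^ #(J ∪ J') ≤ (if J = J' then p ^ t else 0) + p ^ t * p ^ t := by
      intro J hJ1 J' hJ2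
      by_cases h : J = J'
      · subst h
        rw [union_self, hJ J hJ1, if_pos rfl]
        have : 0 ≤ p ^ t * p ^ t := by positivity
        linarith
      · have hdd : Disjoint J J' := hd hJ1 hJ2 h
        rw [if_neg h, zero_add, card_union_of_disjoint hdd, hJ J hJ1, hJ J' hJ2, pow_add]
    calc ∑ J ∈ 𝒥, ∑ J' ∈ 𝒥, p ^ #(J ∪ J')
        ≤ ∑ J ∈ 𝒥, ∑ J' ∈ 𝒥, ((if J = J' then p ^ t else 0) + p ^ t * p ^ t) :=
          sum_le_sum fun J hJ1 => sum_le_sum fun J' hJ2 => h3 J hJ1 J' hJ2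
      _ = l + l ^ 2 := by
          simp only [sum_add_distrib, sum_const, nsmul_eq_mul, sum_ite_eq]
          have : ∑ x ∈ 𝒥, (if x ∈ 𝒥 then p ^ t else 0) = #𝒥 * p ^ t := by
            rw [sum_congr rfl (fun x hx => if_pos hx), sum_const, nsmul_eq_mul]
          rw [this, hl]
          ring
  have e3 : ∑ S : Finset ι, bw p S * (X S - l) ^ 2 ≤ l := by
    have : ∀ S : Finset ι, bw p S * (X S - l) ^ 2 =
        bw p S * X S ^ 2 - 2 * l * (bw p S * X S) + l ^ 2 * bw p S := by
      intro S; ring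
    simp only [this, sum_add_distrib, sum_sub_distrib, ← mul_sum, e1, sum_bw]
    nlinarith
  have e4 : ∑ S : Finset ι, bw p S * (if ∃ J ∈ 𝒥, J ⊆ S then (0 : ℝ) else 1) ≤ 1 / l := by
    rw [le_div_iff₀ hl0, ← mul_le_mul_iff_left₀ hl0]
    calc (∑ S : Finset ι, bw p S * (if ∃ J ∈ 𝒥, J ⊆ S then (0 : ℝ) else 1)) * l * l
        = ∑ S : Finset ι, bw p S * ((if ∃ J ∈ 𝒥, J ⊆ S then (0 : ℝ) else 1) * l ^ 2) := by
          rw [sum_mul, sum_mul]
          exact sum_congr rfl fun S _ => by ring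
      _ ≤ ∑ S : Finset ι, bw p S * (X S - l) ^ 2 := by
          refine sum_le_sum fun S _ => mul_le_mul_of_nonneg_left ?_ (bw_nonneg h0.le h1 S)
          split_ifs with h
          · rw [zero_mul]; positivity
          · have : X S = 0 := by
              simp only [X]
              refine sum_eq_zero fun J hJ' => if_neg fun hs => h ⟨J, hJ', hs⟩
            rw [this]
            linarith
      _ ≤ l := e3
      _ = 1 * l := by ring
  have e5 : ∑ S : Finset ι, bw p S * (if ∃ J ∈ 𝒥, J ⊆ S then (1 : ℝ) else 0) +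
      ∑ S : Finset ι, bw p S * (if ∃ J ∈ 𝒥, J ⊆ S then (0 : ℝ) else 1) = 1 := by
    rw [← sum_add_distrib]
    refine (sum_congr rfl fun S _ => ?_).trans (sum_bw p (ι := ι))
    split_ifs <;> ring
  linarith

end Bernoulli

section Packing

variable {Λ : Type} [Fintype Λ] [DecidableEq Λ] {ι : Type} [Fintype ι] [DecidableEq ι]

/-- There are `s` pairwise disjoint `t`-sets of indices at each of which the positive examples of the
sample form a forbidden set. -/
def HasPacking (𝓕 : Set (Finset Λ)) (f : Λ → Bool) (x : ι → Λ) (t s : ℕ) : Prop :=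
  ∃ 𝒥 : Finset (Finset ι), #𝒥 = s ∧
    (∀ J ∈ 𝒥, #J = t ∧ (∀ i ∈ J, f (x i) = true) ∧ J.image x ∈ 𝓕) ∧
    (𝒥 : Set (Finset ι)).PairwiseDisjoint id

lemma pick (x : ι → Λ) (P : Finset ι) (F : Finset Λ) (h : F ⊆ P.image x) :
    ∃ J ⊆ P, J.image x = F ∧ #J = #F := by
  have h' : ∀ a ∈ F, ∃ i ∈ P, x i = a := fun a ha => mem_image.1 (h ha)
  choose g hg1 hg2 using h'
  refine ⟨F.attach.image (fun a => g a.1 a.2), ?_, ?_, ?_⟩
  · intro i hi
    obtain ⟨a, -, rfl⟩ := mem_image.1 hi
    exact hg1 a.1 a.2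
  · rw [image_image]
    ext a
    simp only [mem_image, Function.comp, mem_attach, true_and, Subtype.exists]
    constructor
    · rintro ⟨b, hb, rfl⟩
      rwa [hg2 b hb]
    · intro ha
      exact ⟨a, ha, hg2 a ha⟩
  · rw [card_image_of_injective _, card_attach]
    intro a b hab
    have hab' : g a.1 a.2 = g b.1 b.2 := hab
    apply Subtype.ext
    rw [← hg2 a.1 a.2, ← hg2 b.1 b.2, hab']

lemma exists_small {𝓕 : Set (Finset Λ)} {f : Λ → Bool} {t k s : ℕ} (h𝓕 : ∀ F ∈ 𝓕, #F = t)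
    (ht : 1 ≤ t) (hk : ∀ E : Finset Λ, (∀ F ∈ 𝓕, ¬ F ⊆ E) → #E ≤ k) (x : ι → Λ)
    (h : ¬ HasPacking 𝓕 f x t s) :
    ∃ I : Finset ι, #I ≤ k ∧ (∀ i ∈ I, f (x i) = true) ∧ (∀ F ∈ 𝓕, ¬ F ⊆ I.image x) ∧
      #{i ∈ Iᶜ | f (x i) = true ∧ x i ∉ I.image x} ≤ s * t := by
  classical
  obtain ⟨n, hns, hn, hn1⟩ : ∃ n, n < s ∧ HasPacking 𝓕 f x t n ∧ ¬ HasPacking 𝓕 f x t (n + 1) := by
    have h0 : HasPacking 𝓕 f x t 0 := ⟨∅, rfl, by simp, by simp⟩
    have hex : ∃ n, ¬ HasPacking 𝓕 f x t n := ⟨s, h⟩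
    have h1 := Nat.find_spec hex
    have h2 : Nat.find hex ≠ 0 := fun h3 => h1 (h3 ▸ h0)
    obtain ⟨n, hn⟩ := Nat.exists_eq_succ_of_ne_zero h2
    have h4 : Nat.find hex ≤ s := Nat.find_min' hex h
    refine ⟨n, by omega, ?_, ?_⟩
    · by_contra hcon
      have := Nat.find_min' hex hcon
      omega
    · rw [hn] at h1
      exact h1
  obtain ⟨𝒥, hcard, hJ, hd⟩ := hn
  set U := 𝒥.biUnion id with hU
  have hUc : #U ≤ s * t := by
    calc #U ≤ ∑ J ∈ 𝒥, #(id J) := card_biUnion_le
      _ = ∑ J ∈ 𝒥, t := sum_congr rfl fun J hJ' => (hJ J hJ').1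
      _ = n * t := by rw [sum_const, hcard, smul_eq_mul]
      _ ≤ s * t := Nat.mul_le_mul_right _ hns.le
  set P := ({i | i ∉ U ∧ f (x i) = true} : Finset ι) with hP
  have hfree : ∀ F ∈ 𝓕, ¬ F ⊆ P.image x := by
    intro F hF hsub
    obtain ⟨J, hJP, hJF, hJc⟩ := pick x P F hsub
    apply hn1
    have hdis : ∀ J' ∈ 𝒥, Disjoint J J' := by
      intro J' hJ'
      rw [Finset.disjoint_left]
      intro i hi hi'
      have h1 := (mem_filter.1 (hJP hi)).2.1
      exact h1 (mem_biUnion.2 ⟨J', hJ', hi'⟩)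
    have hJnot : J ∉ 𝒥 := by
      intro hmem
      have h1 := hdis J hmem
      rw [disjoint_self_iff_empty] at h1
      rw [h1, card_empty, h𝓕 F hF] at hJc
      omega
    refine ⟨insert J 𝒥, by rw [card_insert_of_notMem hJnot, hcard], ?_, ?_⟩
    · intro J' hJ'
      rcases mem_insert.1 hJ' with rfl | h1
      · exact ⟨by rw [hJc, h𝓕 F hF], fun i hi => (mem_filter.1 (hJP hi)).2.2, by rw [hJF]; exact hF⟩
      · exact hJ J' h1
    · rw [coe_insert]
      exact hd.insert fun J' hJ' _ => hdis J' hJ'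
  obtain ⟨I, hIP, hIE, hIc⟩ := pick x P (P.image x) (Subset.refl _)
  refine ⟨I, hIc ▸ hk _ hfree, fun i hi => (mem_filter.1 (hIP hi)).2.2, ?_, ?_⟩
  · rw [hIE]
    exact hfree
  · refine le_trans (card_le_card fun i hi => ?_) hUc
    rw [mem_filter, hIE] at hi
    by_contra hiU
    exact hi.2.2 (mem_image_of_mem _ (by rw [hP, mem_filter]; exact ⟨mem_univ _, hiU, hi.2.1⟩))

open Classical in
/-- For a fixed set `I` of indices it is unlikely that the points at `I` form a set without a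
forbidden subset and few of the other points lie outside of it and are positive. -/
lemma prob_fixed {𝓕 : Set (Finset Λ)} {f : Λ → Bool} {μ : Λ → ℝ} {ε : ℝ} (h0 : ∀ a, 0 ≤ μ a)
    (h1 : ∑ a, μ a = 1) (hε1 : ε ≤ 1) (hfar : ∀ E : Finset Λ, (∀ F ∈ 𝓕, ¬ F ⊆ E) →
      ε ≤ ∑ a with f a ≠ decide (a ∈ E), μ a) (I : Finset ι) (a : ℕ) :
    ∑ x : ι → Λ, wt μ x * (if (∀ i ∈ I, f (x i) = true) ∧ (∀ F ∈ 𝓕, ¬ F ⊆ I.image x) ∧
      #{i ∈ Iᶜ | f (x i) = true ∧ x i ∉ I.image x} ≤ a then 1 else 0) ≤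
      2 ^ a * (1 - ε / 2) ^ (Fintype.card ι - #I) := by
  obtain ⟨p, hp⟩ : ∃ p : ι → Prop, ∀ i, p i ↔ i ∈ I := ⟨fun i => i ∈ I, fun _ => Iff.rfl⟩
  rw [sum_split p]
  have hpos : (0 : ℝ) ≤ 1 - ε / 2 := by linarith
  have key : ∀ u : {i // p i} → Λ,
      ∑ v : {i // ¬ p i} → Λ, wt μ (glue p u v) *
        (if (∀ i ∈ I, f (glue p u v i) = true) ∧
          (∀ F ∈ 𝓕, ¬ F ⊆ I.image (glue p u v)) ∧
          #{i ∈ Iᶜ | f (glue p u v i) = true ∧
            glue p u v i ∉ I.image (glue p u v)} ≤ a then 1 else 0) ≤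
      wt μ u * (2 ^ a * (1 - ε / 2) ^ (Fintype.card ι - #I)) := by
    intro u
    have hwu := wt_nonneg h0 u
    set E : Finset Λ := univ.image u with hE
    have hIE : ∀ v : {i // ¬ p i} → Λ, I.image (glue p u v) = E := by
      intro v
      ext b
      simp only [hE, mem_image, mem_univ, true_and, Subtype.exists]
      constructor
      · rintro ⟨i, hi, rfl⟩
        exact ⟨i, (hp i).2 hi, by simp [glue, (hp i).2 hi]⟩
      · rintro ⟨i, hi, rfl⟩
        exact ⟨i, (hp i).1 hi, by simp [glue, hi]⟩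
    by_cases hu : (∀ i : {i // p i}, f (u i) = true) ∧ (∀ F ∈ 𝓕, ¬ F ⊆ E)
    swap
    · have hz : ∀ v : {i // ¬ p i} → Λ, ¬ ((∀ i ∈ I, f (glue p u v i) = true) ∧
          (∀ F ∈ 𝓕, ¬ F ⊆ I.image (glue p u v)) ∧
          #{i ∈ Iᶜ | f (glue p u v i) = true ∧
            glue p u v i ∉ I.image (glue p u v)} ≤ a) := by
        rintro v ⟨g1, g2, -⟩
        apply hu
        refine ⟨fun i => ?_, ?_⟩
        · have := g1 i ((hp i).1 i.2)
          simpa [glue, i.2] using this
        · rw [hIE] at g2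
          exact g2
      rw [sum_eq_zero fun v _ => by rw [if_neg (hz v), mul_zero]]
      positivity
    · set D : Finset Λ := {b | f b = true ∧ b ∉ E} with hD
      have hμD : ε ≤ ∑ b ∈ D, μ b := by
        refine (hfar E hu.2).trans (le_of_eq (sum_congr ?_ fun _ _ => rfl))
        ext b
        simp only [hD, mem_filter, mem_univ, true_and]
        by_cases hb : b ∈ E
        · simp only [hb, decide_true, not_true_eq_false, and_false, iff_false, ne_eq, not_not]
          obtain ⟨i, -, rfl⟩ := mem_image.1 hb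
          exact hu.1 i
        · simp [hb]
      let φ : Λ → ℝ := fun b => μ b * (if b ∈ D then 1 / 2 else 1)
      have hφ : ∑ b, φ b ≤ 1 - ε / 2 := by
        have e1 : ∑ b, φ b = ∑ b, μ b - (∑ b ∈ D, μ b) / 2 := by
          have : ∀ b, φ b = μ b - (if b ∈ D then μ b else 0) / 2 := by
            intro b
            simp only [φ]
            split_ifs <;> ring
          simp only [this, sum_sub_distrib]
          rw [← sum_div, sum_ite_mem, univ_inter]
        rw [e1, h1]
        linarith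
      have hφ0 : 0 ≤ ∑ b, φ b := sum_nonneg fun b _ => by
        simp only [φ]
        have := h0 b
        split_ifs <;> linarith
      have hcardv : Fintype.card {i // ¬ p i} = Fintype.card ι - #I := by
        rw [Fintype.card_subtype_compl, Fintype.card_of_subtype I (fun i => (hp i).symm)]
      calc _ ≤ ∑ v : {i // ¬ p i} → Λ, wt μ u * (2 ^ a * ∏ i, φ (v i)) := by
            refine sum_le_sum fun v _ => ?_
            rw [wt_glue, mul_assoc]
            refine mul_le_mul_of_nonneg_left ?_ hwu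
            have hwv := wt_nonneg h0 v
            have hprod : ∏ i, φ (v i) = wt μ v * ∏ i, (if v i ∈ D then 1 / 2 else 1) := by
              simp only [φ, prod_mul_distrib, wt]
            rw [hprod, ← mul_assoc, mul_comm ((2 : ℝ) ^ a) (wt μ v), mul_assoc]
            refine mul_le_mul_of_nonneg_left ?_ hwv
            have hp0 : (0 : ℝ) ≤ ∏ i, (if v i ∈ D then 1 / 2 else 1) :=
              prod_nonneg fun i _ => by split_ifs <;> norm_num
            split_ifs with hc
            · have hc3 := hc.2.2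
              rw [hIE] at hc3
              have hcount : #{i | v i ∈ D} ≤ a := by
                refine le_trans ?_ hc3
                refine card_le_card_of_injOn (fun i => i.1) ?_ (fun i _ j _ hij => Subtype.ext hij)
                intro i hi
                simp only [coe_filter, mem_univ, true_and, Set.mem_ofPred_eq] at hi
                simp only [coe_filter, mem_compl, Set.mem_ofPred_eq]
                have hg : glue p u v i.1 = v i := by simp [glue, i.2]
                rw [hg]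
                exact ⟨fun h => i.2 ((hp _).2 h), (mem_filter.1 hi).2⟩
              have e2 : ∏ i, (if v i ∈ D then (1 / 2 : ℝ) else 1) = (1 / 2) ^ #{i | v i ∈ D} := by
                rw [prod_ite, prod_const, prod_const_one, mul_one]
              rw [e2, one_div, inv_pow]
              have e3 : (2 : ℝ) ^ #{i | v i ∈ D} ≤ 2 ^ a :=
                pow_le_pow_right₀ (by norm_num) hcount
              have e4 : (0 : ℝ) < 2 ^ #{i | v i ∈ D} := by positivity
              rw [← div_eq_mul_inv, one_le_div e4]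
              exact e3
            · positivity
        _ = wt μ u * (2 ^ a * (∑ b, φ b) ^ (Fintype.card ι - #I)) := by
            rw [← mul_sum, ← mul_sum, sum_prod, hcardv]
        _ ≤ _ := by
            refine mul_le_mul_of_nonneg_left ?_ hwu
            refine mul_le_mul_of_nonneg_left ?_ (by positivity)
            exact pow_le_pow_left₀ hφ0 hφ _
  calc _ ≤ ∑ u : {i // p i} → Λ, wt μ u * (2 ^ a * (1 - ε / 2) ^ (Fintype.card ι - #I)) :=
        sum_le_sum fun u _ => key u
    _ = _ := by rw [← sum_mul, sum_wt h1, one_mul]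

open Classical in
/-- The number of sets with at most `k` elements. -/
lemma count_small (k : ℕ) {z : ℝ} (hz : 0 < z) (hz1 : z ≤ 1) :
    (#{I : Finset ι | #I ≤ k} : ℝ) ≤ z⁻¹ ^ k * (1 + z) ^ Fintype.card ι := by
  have h := Fintype.sum_pow_mul_eq_add_pow ι z 1
  rw [add_comm 1 z, ← h, mul_sum, card_eq_sum_ones, Nat.cast_sum, sum_filter]
  refine sum_le_sum fun I _ => ?_
  rw [one_pow, mul_one]
  split_ifs with hI
  · rw [Nat.cast_one, inv_pow, ← div_eq_inv_mul, one_le_div (by positivity)]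
    exact pow_le_pow_of_le_one hz.le hz1 hI
  · positivity

open Classical in
/-- It is unlikely that a large sample has no large packing. -/
lemma prob_no_packing {𝓕 : Set (Finset Λ)} {f : Λ → Bool} {μ : Λ → ℝ} {ε : ℝ} {t k s : ℕ}
    (h0 : ∀ a, 0 ≤ μ a) (h1 : ∑ a, μ a = 1) (hε0 : 0 ≤ ε) (hε1 : ε ≤ 1)
    (hfar : ∀ E : Finset Λ, (∀ F ∈ 𝓕, ¬ F ⊆ E) → ε ≤ ∑ a with f a ≠ decide (a ∈ E), μ a)
    (h𝓕 : ∀ F ∈ 𝓕, #F = t) (ht : 1 ≤ t) (hk : ∀ E : Finset Λ, (∀ F ∈ 𝓕, ¬ F ⊆ E) → #E ≤ k)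
    {z : ℝ} (hz : 0 < z) (hz1 : z ≤ 1) :
    ∑ x : ι → Λ, wt μ x * (if HasPacking 𝓕 f x t s then 0 else 1) ≤
      z⁻¹ ^ k * (1 + z) ^ Fintype.card ι * (2 ^ (s * t) * (1 - ε / 2) ^ (Fintype.card ι - k)) := by
  have hpos : (0 : ℝ) ≤ 1 - ε / 2 := by linarith
  calc ∑ x : ι → Λ, wt μ x * (if HasPacking 𝓕 f x t s then (0 : ℝ) else 1)
      ≤ ∑ x : ι → Λ, ∑ I : Finset ι with #I ≤ k, wt μ x * (if (∀ i ∈ I, f (x i) = true) ∧
        (∀ F ∈ 𝓕, ¬ F ⊆ I.image x) ∧
        #{i ∈ Iᶜ | f (x i) = true ∧ x i ∉ I.image x} ≤ s * t then (1 : ℝ) else 0) := by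
        refine sum_le_sum fun x _ => ?_
        have hw := wt_nonneg h0 x
        split_ifs with hp
        · rw [mul_zero]
          refine sum_nonneg fun I _ => mul_nonneg hw ?_
          split_ifs <;> norm_num
        · obtain ⟨I, hI1, hI2, hI3, hI4⟩ := exists_small h𝓕 ht hk x hp
          refine le_trans (le_of_eq ?_) (single_le_sum (f := fun I => wt μ x *
            (if (∀ i ∈ I, f (x i) = true) ∧ (∀ F ∈ 𝓕, ¬ F ⊆ I.image x) ∧
            #{i ∈ Iᶜ | f (x i) = true ∧ x i ∉ I.image x} ≤ s * t then (1 : ℝ) else 0))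
            (fun I _ => mul_nonneg hw (by split_ifs <;> norm_num))
            (by simpa using hI1 : I ∈ ({I : Finset ι | #I ≤ k} : Finset (Finset ι))))
          rw [if_pos ⟨hI2, hI3, hI4⟩]
    _ = ∑ I : Finset ι with #I ≤ k, ∑ x : ι → Λ, wt μ x * (if (∀ i ∈ I, f (x i) = true) ∧
        (∀ F ∈ 𝓕, ¬ F ⊆ I.image x) ∧
        #{i ∈ Iᶜ | f (x i) = true ∧ x i ∉ I.image x} ≤ s * t then (1 : ℝ) else 0) := sum_comm
    _ ≤ ∑ I : Finset ι with #I ≤ k, 2 ^ (s * t) * (1 - ε / 2) ^ (Fintype.card ι - k) := by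
        refine sum_le_sum fun I hI => ?_
        refine (prob_fixed h0 h1 hε1 hfar I (s * t)).trans ?_
        refine mul_le_mul_of_nonneg_left ?_ (by positivity)
        refine pow_le_pow_of_le_one hpos (by linarith) ?_
        have := (mem_filter.1 hI).2
        omega
    _ = #{I : Finset ι | #I ≤ k} * (2 ^ (s * t) * (1 - ε / 2) ^ (Fintype.card ι - k)) := by
        rw [sum_const, nsmul_eq_mul]
    _ ≤ _ := mul_le_mul_of_nonneg_right (count_small k hz hz1) (by positivity)

end Packing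

section Detect

variable {Λ : Type} [Fintype Λ] [DecidableEq Λ]

/-- The positive examples in the sample contain a forbidden set. -/
def Bad (𝓕 : Set (Finset Λ)) (f : Λ → Bool) {κ : Type} (y : κ → Λ) : Prop :=
  ∃ F ∈ 𝓕, ∀ a ∈ F, f a = true ∧ ∃ j, y j = a

lemma Bad.of_comp {𝓕 : Set (Finset Λ)} {f : Λ → Bool} {κ ι : Type} {x : ι → Λ} {e : κ → ι}
    (h : Bad 𝓕 f (x ∘ e)) : Bad 𝓕 f x := by
  obtain ⟨F, hF, h⟩ := h
  exact ⟨F, hF, fun a ha => ⟨(h a ha).1, (h a ha).2.imp' e fun j hj => hj⟩⟩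

open Classical in
lemma rho_mono {𝓕 : Set (Finset Λ)} {f : Λ → Bool} {μ : Λ → ℝ} (h0 : ∀ a, 0 ≤ μ a)
    (h1 : ∑ a, μ a = 1) {κ ι : Type} [Fintype κ] [Fintype ι] [DecidableEq κ] [DecidableEq ι]
    (e : κ ↪ ι) :
    ∑ y : κ → Λ, wt μ y * (if Bad 𝓕 f y then 1 else 0) ≤
      ∑ x : ι → Λ, wt μ x * (if Bad 𝓕 f x then 1 else 0) := by
  rw [← marg h1 e]
  refine sum_le_sum fun x _ => mul_le_mul_of_nonneg_left ?_ (wt_nonneg h0 x)
  by_cases h : Bad 𝓕 f (x ∘ e)
  · rw [if_pos h, if_pos h.of_comp]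
  · rw [if_neg h]
    split_ifs <;> norm_num

open Classical in
/-- If large samples have large packings then small samples contain forbidden sets. -/
lemma detect {𝓕 : Set (Finset Λ)} {f : Λ → Bool} {μ : Λ → ℝ} (h0 : ∀ a, 0 ≤ μ a)
    (h1 : ∑ a, μ a = 1) {M t s m : ℕ} {p : ℝ} (hs : 0 < s) (hp0 : 0 < p) (hp1 : p ≤ 1)
    (hpt : 20 ≤ s * p ^ t) (hm : 0 < m) (hpm : 10 * p * M ≤ m)
    (hpack : ∑ x : Fin M → Λ, wt μ x * (if HasPacking 𝓕 f x t s then 0 else 1) ≤ 1 / 10) :
    2 / 3 ≤ ∑ y : Fin m → Λ, wt μ y * (if Bad 𝓕 f y then 1 else 0) := by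
  set ρ : ℝ := ∑ y : Fin m → Λ, wt μ y * (if Bad 𝓕 f y then 1 else 0) with hρ
  have hρ0 : 0 ≤ ρ := sum_nonneg fun y _ => mul_nonneg (wt_nonneg h0 y) (by split_ifs <;> norm_num)
  set T : ℝ := ∑ S : Finset (Fin M), bw p S * ∑ x : Fin M → Λ, wt μ x *
    (if Bad 𝓕 f (fun i : S => x i) then 1 else 0) with hT
  have hupper : T ≤ ρ + 1 / 10 := by
    have h2 : ∀ S : Finset (Fin M), ∑ x : Fin M → Λ, wt μ x *
        (if Bad 𝓕 f (fun i : S => x i) then (1 : ℝ) else 0) ≤ ρ + #S / m := by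
      intro S
      have hm0 : (0 : ℝ) < m := by exact_mod_cast hm
      by_cases hS : #S ≤ m
      · have h3 := marg h1 (Function.Embedding.subtype (fun i => i ∈ S))
          (fun y => if Bad 𝓕 f y then (1 : ℝ) else 0)
        have h4 : ∑ x : Fin M → Λ, wt μ x *
            (if Bad 𝓕 f (fun i : S => x i) then (1 : ℝ) else 0) =
            ∑ y : S → Λ, wt μ y * (if Bad 𝓕 f y then (1 : ℝ) else 0) := h3
        rw [h4]
        have h5 : Nonempty (S ↪ Fin m) := by
          apply Function.Embedding.nonempty_of_card_le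
          simpa using hS
        have h6 := rho_mono (𝓕 := 𝓕) (f := f) h0 h1 h5.some
        have h7 : (0 : ℝ) ≤ #S / m := by positivity
        have h8 : ∑ x : Fin m → Λ, wt μ x * (if Bad 𝓕 f x then (1 : ℝ) else 0) = ρ := by
          rw [hρ]
        linarith
      · push Not at hS
        have h9 : ∑ x : Fin M → Λ, wt μ x *
            (if Bad 𝓕 f (fun i : S => x i) then (1 : ℝ) else 0) ≤ 1 := by
          refine le_trans (sum_le_sum fun x _ => ?_) (le_of_eq (sum_wt h1 (Fin M)))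
          have := wt_nonneg h0 x
          split_ifs <;> linarith
        have h10 : (1 : ℝ) ≤ #S / m := by
          rw [one_le_div hm0]
          exact_mod_cast hS.le
        linarith
    calc T ≤ ∑ S : Finset (Fin M), bw p S * (ρ + #S / m) :=
          sum_le_sum fun S _ => mul_le_mul_of_nonneg_left (h2 S) (bw_nonneg hp0.le hp1 S)
      _ = ρ * ∑ S : Finset (Fin M), bw p S + (∑ S : Finset (Fin M), bw p S * #S) / m := by
          rw [mul_sum, sum_div, ← sum_add_distrib]
          exact sum_congr rfl fun S _ => by ring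
      _ = ρ + p * M / m := by rw [sum_bw, sum_bw_card, Fintype.card_fin, mul_one]
      _ ≤ ρ + 1 / 10 := by
          have hm0 : (0 : ℝ) < m := by exact_mod_cast hm
          have : p * M / m ≤ 1 / 10 := by
            rw [div_le_iff₀ hm0]
            linarith
          linarith
  have hlower : 9 / 10 * (19 / 20) ≤ T := by
    have h2 : T = ∑ x : Fin M → Λ, wt μ x * ∑ S : Finset (Fin M), bw p S *
        (if Bad 𝓕 f (fun i : S => x i) then 1 else 0) := by
      rw [hT]
      simp only [mul_sum]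
      rw [sum_comm]
      refine sum_congr rfl fun x _ => sum_congr rfl fun S _ => by ring
    rw [h2]
    have h3 : ∀ x : Fin M → Λ, (19 / 20 : ℝ) * (if HasPacking 𝓕 f x t s then 1 else 0) ≤
        ∑ S : Finset (Fin M), bw p S * (if Bad 𝓕 f (fun i : S => x i) then 1 else 0) := by
      intro x
      split_ifs with hx
      · obtain ⟨𝒥, hc, hJ, hd⟩ := hx
        have h4 := second_moment hp0 hp1 t 𝒥 (fun J hJ' => (hJ J hJ').1) hd (by omega)
        rw [hc] at h4
        have h5 : (1 : ℝ) / (s * p ^ t) ≤ 1 / 20 :=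
          one_div_le_one_div_of_le (by norm_num) hpt
        have h6 : ∑ S : Finset (Fin M), bw p S * (if ∃ J ∈ 𝒥, J ⊆ S then (1 : ℝ) else 0) ≤
            ∑ S : Finset (Fin M), bw p S * (if Bad 𝓕 f (fun i : S => x i) then 1 else 0) := by
          refine sum_le_sum fun S _ => mul_le_mul_of_nonneg_left ?_ (bw_nonneg hp0.le hp1 S)
          by_cases h7 : ∃ J ∈ 𝒥, J ⊆ S
          · have h8 : Bad 𝓕 f (fun i : S => x i) := by
              obtain ⟨J, hJ1, hJ2⟩ := h7
              obtain ⟨g1, g2, g3⟩ := hJ J hJ1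
              refine ⟨_, g3, fun a ha => ?_⟩
              obtain ⟨i, hi, rfl⟩ := mem_image.1 ha
              exact ⟨g2 i hi, ⟨i, hJ2 hi⟩, rfl⟩
            rw [if_pos h7, if_pos h8]
          · rw [if_neg h7]
            split_ifs <;> norm_num
        linarith
      · rw [mul_zero]
        exact sum_nonneg fun S _ => mul_nonneg (bw_nonneg hp0.le hp1 S)
          (by split_ifs <;> norm_num)
    have h4 : ∑ x : Fin M → Λ, wt μ x * (if HasPacking 𝓕 f x t s then (1 : ℝ) else 0) +
        ∑ x : Fin M → Λ, wt μ x * (if HasPacking 𝓕 f x t s then (0 : ℝ) else 1) = 1 := by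
      rw [← sum_add_distrib]
      refine (sum_congr rfl fun x _ => ?_).trans (sum_wt h1 (Fin M))
      split_ifs <;> ring
    calc (9 / 10 * (19 / 20) : ℝ) ≤ 19 / 20 *
          ∑ x : Fin M → Λ, wt μ x * (if HasPacking 𝓕 f x t s then (1 : ℝ) else 0) := by linarith
      _ = ∑ x : Fin M → Λ, wt μ x *
          ((19 / 20 : ℝ) * (if HasPacking 𝓕 f x t s then 1 else 0)) := by
          rw [mul_sum]
          exact sum_congr rfl fun x _ => by ring
      _ ≤ _ := sum_le_sum fun x _ => mul_le_mul_of_nonneg_left (h3 x) (wt_nonneg h0 x)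
  linarith

end Detect

/-- The parameters of the large sample. -/
lemma exists_params {ε : ℝ} (hε0 : 0 < ε) (hε1 : ε < 1) : ∃ q L : ℕ, 1 ≤ q ∧ 20 ≤ L ∧
    ∀ t k : ℕ, 1 ≤ t → 1 ≤ k → (ε / 4)⁻¹ ^ k * (1 + ε / 4) ^ (q * t * L * k) *
      (2 ^ (L * k * t) * (1 - ε / 2) ^ (q * t * L * k - k)) ≤ 1 / 10 := by
  obtain ⟨q, hq⟩ := exists_pow_lt_of_lt_one (show (0 : ℝ) < 1 / 4 by norm_num)
    (show 1 - ε / 4 < 1 by linarith)
  obtain ⟨L₀, hL₀⟩ := exists_pow_lt_of_lt_one (show (0 : ℝ) < ε / 80 by positivity)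
    (show (1 / 2 : ℝ) < 1 by norm_num)
  have hq1 : 1 ≤ q := by
    rcases Nat.eq_zero_or_pos q with h | h
    · rw [h, pow_zero] at hq
      norm_num at hq
    · exact h
  refine ⟨q, L₀ + 20, hq1, by omega, fun t k ht hk => ?_⟩
  set L := L₀ + 20 with hL
  have hL1 : 1 ≤ L := by omega
  have hhalf : (0 : ℝ) < 1 - ε / 2 := by linarith
  have hkM : k ≤ q * t * L * k := by
    have : 1 ≤ q * t * L := Nat.mul_pos (Nat.mul_pos hq1 ht) hL1
    calc k = 1 * k := (one_mul k).symm
      _ ≤ q * t * L * k := Nat.mul_le_mul_right _ this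
  have h1 : (1 - ε / 2) ^ (q * t * L * k - k) ≤ 2 ^ k * (1 - ε / 2) ^ (q * t * L * k) := by
    have h2 : (1 - ε / 2) ^ (q * t * L * k) = (1 - ε / 2) ^ (q * t * L * k - k) * (1 - ε / 2) ^ k := by
      rw [← pow_add]; congr 1; omega
    rw [h2]
    have h3 : 1 ≤ 2 ^ k * (1 - ε / 2) ^ k := by
      rw [← mul_pow]
      exact one_le_pow₀ (by linarith)
    have h4 : 0 ≤ (1 - ε / 2) ^ (q * t * L * k - k) := by positivity
    calc (1 - ε / 2) ^ (q * t * L * k - k) = (1 - ε / 2) ^ (q * t * L * k - k) * 1 := by ring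
      _ ≤ (1 - ε / 2) ^ (q * t * L * k - k) * (2 ^ k * (1 - ε / 2) ^ k) :=
          mul_le_mul_of_nonneg_left h3 h4
      _ = _ := by ring
  have h5 : ((1 + ε / 4) * (1 - ε / 2)) ^ (q * t * L * k) ≤ (1 / 4) ^ (t * L * k) := by
    have h6 : (1 + ε / 4) * (1 - ε / 2) ≤ 1 - ε / 4 := by nlinarith
    have h7 : 0 ≤ (1 + ε / 4) * (1 - ε / 2) := by positivity
    calc ((1 + ε / 4) * (1 - ε / 2)) ^ (q * t * L * k) ≤ (1 - ε / 4) ^ (q * t * L * k) :=
          pow_le_pow_left₀ h7 h6 _
      _ = ((1 - ε / 4) ^ q) ^ (t * L * k) := by rw [← pow_mul]; congr 1; ring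
      _ ≤ (1 / 4) ^ (t * L * k) := pow_le_pow_left₀ (pow_nonneg (by linarith) _) hq.le _
  calc (ε / 4)⁻¹ ^ k * (1 + ε / 4) ^ (q * t * L * k) *
        (2 ^ (L * k * t) * (1 - ε / 2) ^ (q * t * L * k - k))
      ≤ (ε / 4)⁻¹ ^ k * (1 + ε / 4) ^ (q * t * L * k) *
        (2 ^ (L * k * t) * (2 ^ k * (1 - ε / 2) ^ (q * t * L * k))) := by
        refine mul_le_mul_of_nonneg_left (mul_le_mul_of_nonneg_left h1 ?_) ?_ <;> positivity
    _ = ((ε / 4)⁻¹ * 2) ^ k * (2 ^ (t * L * k)) *
          ((1 + ε / 4) * (1 - ε / 2)) ^ (q * t * L * k) := by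
        rw [mul_pow, mul_pow]
        have : L * k * t = t * L * k := by ring
        rw [this]
        ring
    _ ≤ ((ε / 4)⁻¹ * 2) ^ k * (2 ^ (t * L * k)) * (1 / 4) ^ (t * L * k) :=
        mul_le_mul_of_nonneg_left h5 (by positivity)
    _ = ((ε / 4)⁻¹ * 2) ^ k * (1 / 2) ^ (t * L * k) := by
        rw [mul_assoc, ← mul_pow]
        norm_num
    _ ≤ ((ε / 4)⁻¹ * 2) ^ k * (1 / 2) ^ (L₀ * k) := by
        refine mul_le_mul_of_nonneg_left ?_ (by positivity)
        refine pow_le_pow_of_le_one (by norm_num) (by norm_num) ?_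
        refine Nat.mul_le_mul_right _ ?_
        calc L₀ ≤ 1 * L := by omega
          _ ≤ t * L := Nat.mul_le_mul_right _ ht
    _ = ((ε / 4)⁻¹ * 2 * (1 / 2) ^ L₀) ^ k := by
        rw [mul_pow _ ((1 / 2 : ℝ) ^ L₀), ← pow_mul]
    _ ≤ (1 / 10) ^ k := by
        refine pow_le_pow_left₀ (by positivity) ?_ _
        calc (ε / 4)⁻¹ * 2 * (1 / 2) ^ L₀ ≤ (ε / 4)⁻¹ * 2 * (ε / 80) :=
              mul_le_mul_of_nonneg_left hL₀.le (by positivity)
          _ = 1 / 10 := by field_simp; norm_num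
    _ ≤ (1 / 10) ^ 1 := pow_le_pow_of_le_one (by norm_num) (by norm_num) hk
    _ = 1 / 10 := by norm_num

open Classical in
/-- The sample size: `O(k ^ (1 - 1 / t))` samples contain a forbidden set, if the forbidden sets have
`t` elements and the sets without forbidden subsets have at most `k` elements. -/
theorem main {ε : ℝ} (hε0 : 0 < ε) (hε1 : ε < 1) {t : ℕ} (ht : 1 ≤ t) : ∃ C : ℝ,
    ∀ (Λ : Type) [Fintype Λ] [DecidableEq Λ] (𝓕 : Set (Finset Λ)) (k : ℕ), 1 ≤ k →
      (∀ F ∈ 𝓕, #F = t) → (∀ E : Finset Λ, (∀ F ∈ 𝓕, ¬ F ⊆ E) → #E ≤ k) →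
      ∃ m : ℕ, 0 < m ∧ (m : ℝ) ≤ C * (k : ℝ) ^ (1 - 1 / (t : ℝ)) ∧
        ∀ (μ : Λ → ℝ) (f : Λ → Bool), (∀ a, 0 ≤ μ a) → ∑ a, μ a = 1 →
          (∀ E : Finset Λ, (∀ F ∈ 𝓕, ¬ F ⊆ E) → ε ≤ ∑ a with f a ≠ decide (a ∈ E), μ a) →
          2 / 3 ≤ ∑ y : Fin m → Λ, wt μ y * (if Bad 𝓕 f y then 1 else 0) := by
  obtain ⟨q, L, hq, hL, hpar⟩ := exists_params hε0 hε1
  refine ⟨10 * (q * t * L) + 1, ?_⟩
  intro Λ _ _ 𝓕 k hk h𝓕 hE
  have hk0 : (0 : ℝ) < k := by exact_mod_cast hk
  have hL0 : (0 : ℝ) < L := by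
    have : 0 < L := by omega
    exact_mod_cast this
  have ht0 : (0 : ℝ) < t := by exact_mod_cast ht
  have hq0 : (0 : ℝ) < q := by exact_mod_cast hq
  have hk1 : (1 : ℝ) ≤ k := by exact_mod_cast hk
  have hL20 : (20 : ℝ) ≤ L := by exact_mod_cast hL
  set p : ℝ := (20 / (L * k)) ^ (1 / (t : ℝ)) with hp
  have hbase : (0 : ℝ) < 20 / (L * k) := by positivity
  have hp0 : 0 < p := Real.rpow_pos_of_pos hbase _
  have hp1 : p ≤ 1 := by
    refine Real.rpow_le_one hbase.le ?_ (by positivity)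
    rw [div_le_one (by positivity)]
    nlinarith
  have hpt : p ^ t = 20 / (L * k) := by
    rw [hp, ← Real.rpow_natCast, ← Real.rpow_mul hbase.le, one_div, inv_mul_cancel₀ ht0.ne',
      Real.rpow_one]
  have hpk : p * k ≤ (k : ℝ) ^ (1 - 1 / (t : ℝ)) := by
    have h1 : p ≤ (1 / (k : ℝ)) ^ (1 / (t : ℝ)) := by
      refine Real.rpow_le_rpow hbase.le ?_ (by positivity)
      rw [div_le_div_iff₀ (by positivity) hk0]
      nlinarith
    calc p * k ≤ (1 / (k : ℝ)) ^ (1 / (t : ℝ)) * k := mul_le_mul_of_nonneg_right h1 hk0.le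
      _ = (k : ℝ) ^ (1 - 1 / (t : ℝ)) := by
        rw [Real.rpow_sub hk0, Real.rpow_one, one_div (k : ℝ), Real.inv_rpow hk0.le]
        field_simp
  set M : ℕ := q * t * L * k with hM
  have hM1 : 0 < M := Nat.mul_pos (Nat.mul_pos (Nat.mul_pos hq ht) (by omega)) hk
  have hM0 : (0 : ℝ) < M := by exact_mod_cast hM1
  refine ⟨⌈10 * p * M⌉₊, Nat.ceil_pos.2 (by positivity), ?_, ?_⟩
  · have h1 : (⌈10 * p * M⌉₊ : ℝ) < 10 * p * M + 1 := Nat.ceil_lt_add_one (by positivity)
    have h2 : 10 * p * M = 10 * (q * t * L) * (p * k) := by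
      rw [hM]; push_cast; ring
    have h3 : (1 : ℝ) ≤ (k : ℝ) ^ (1 - 1 / (t : ℝ)) := by
      refine Real.one_le_rpow hk1 ?_
      rw [sub_nonneg, div_le_one ht0]
      exact_mod_cast ht
    have h4 : 10 * ((q : ℝ) * t * L) * (p * k) ≤
        10 * (q * t * L) * (k : ℝ) ^ (1 - 1 / (t : ℝ)) :=
      mul_le_mul_of_nonneg_left hpk (by positivity)
    calc (⌈10 * p * M⌉₊ : ℝ) ≤ 10 * (q * t * L) * (k : ℝ) ^ (1 - 1 / (t : ℝ)) + 1 := by
          rw [h2] at h1 ⊢
          linarith
      _ ≤ _ := by nlinarith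
  · intro μ f h0 h1 hfar
    refine detect (M := M) (t := t) (s := L * k) h0 h1 (Nat.mul_pos (by omega) hk) hp0 hp1 ?_
      (Nat.ceil_pos.2 (by positivity)) (Nat.le_ceil _) ?_
    · rw [hpt]
      push_cast
      rw [mul_div_cancel₀ _ (by positivity)]
    · refine (prob_no_packing (ι := Fin M) (s := L * k) (t := t) (k := k) (z := ε / 4) h0 h1 hε0.le
        hε1.le hfar h𝓕 ht hE (by positivity) (by linarith)).trans ?_
      rw [Fintype.card_fin]
      exact hpar t k ht hk

/-! ### The testing model -/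

/-- The probability that the randomized algorithm `A`, which accepts the sequence `s` of labelled
examples with probability `A s`, accepts `m` independent samples `x` from the distribution `μ`,
labelled with the values `f x`. -/
noncomputable def acceptProb {Λ : Type} [Fintype Λ] {m : ℕ} (A : (Fin m → Λ × Bool) → ℝ)
    (μ : Λ → ℝ) (f : Λ → Bool) : ℝ :=
  ∑ x : Fin m → Λ, (∏ j, μ (x j)) * A (fun j => (x j, f (x j)))

/-- `A` is a tester with `m` labelled samples and proximity parameter `ε` for the family `𝓗`: for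
every distribution `μ` and every function `f`, it accepts with probability at least `2 / 3` if
`f ∈ 𝓗`, and rejects with probability at least `2 / 3` if `f` has distance at least `ε` from every
member of `𝓗` with respect to `μ`. -/
def IsTester {Λ : Type} [Fintype Λ] (𝓗 : Set (Λ → Bool)) (ε : ℝ) (m : ℕ)
    (A : (Fin m → Λ × Bool) → ℝ) : Prop :=
  (∀ s, 0 ≤ A s ∧ A s ≤ 1) ∧
  ∀ μ : Λ → ℝ, (∀ a, 0 ≤ μ a) → ∑ a, μ a = 1 → ∀ f : Λ → Bool,
    (f ∈ 𝓗 → 2 / 3 ≤ acceptProb A μ f) ∧
    ((∀ g ∈ 𝓗, ε ≤ ∑ a with f a ≠ g a, μ a) → 2 / 3 ≤ 1 - acceptProb A μ f)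

/-- `sam(𝓗, ε)`, the least positive number of samples of a tester. -/
noncomputable def sam {Λ : Type} [Fintype Λ] (𝓗 : Set (Λ → Bool)) (ε : ℝ) : ℕ :=
  sInf {m | 0 < m ∧ ∃ A : (Fin m → Λ × Bool) → ℝ, IsTester 𝓗 ε m A}

/-- The pairs of elements of `[n]`. -/
abbrev Pair (n : ℕ) := {e : Sym2 (Fin n) // ¬ e.IsDiag}

/-- The graph on `[n]` whose edges are the pairs at which `g` is true. -/
def graph {n : ℕ} (g : Pair n → Bool) : SimpleGraph (Fin n) :=
  SimpleGraph.fromEdgeSet {e | ∃ h : ¬ e.IsDiag, g ⟨e, h⟩ = true}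

/-- The family of the edge sets on `[n]` without a subgraph isomorphic to `H`. -/
def freeFamily (n : ℕ) {W : Type} (H : SimpleGraph W) : Set (Pair n → Bool) :=
  {g | H.Free (graph g)}

/-! ### The proof -/

lemma graph_adj {n : ℕ} (g : Pair n → Bool) (u v : Fin n) :
    (graph g).Adj u v ↔ ∃ h : ¬ (s(u, v) : Sym2 (Fin n)).IsDiag, g ⟨s(u, v), h⟩ = true := by
  unfold graph
  rw [SimpleGraph.fromEdgeSet_adj]
  constructor
  · rintro ⟨h, -⟩
    exact h
  · intro h
    refine ⟨h, ?_⟩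
    obtain ⟨h, -⟩ := h
    intro huv
    exact h (by simpa using huv)

lemma graph_mono {n : ℕ} {g g' : Pair n → Bool} (h : ∀ e, g e = true → g' e = true) :
    graph g ≤ graph g' := by
  intro u v huv
  rw [graph_adj] at huv ⊢
  obtain ⟨h1, h2⟩ := huv
  exact ⟨h1, h _ h2⟩

lemma mem_edgeSet_graph {n : ℕ} (g : Pair n → Bool) (e : Sym2 (Fin n)) :
    e ∈ (graph g).edgeSet ↔ ∃ h : ¬ e.IsDiag, g ⟨e, h⟩ = true := by
  induction e with
  | _ u v => rw [SimpleGraph.mem_edgeSet, graph_adj]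

open Classical in
/-- The forbidden sets: the sets with as many elements as `H` has edges which contain `H`. -/
def forbidden (n : ℕ) {W : Type} (H : SimpleGraph W) : Set (Finset (Pair n)) :=
  {F | #F = H.edgeSet.ncard ∧ ¬ H.Free (graph fun e => decide (e ∈ F))}

open Classical in
lemma free_iff (n : ℕ) {W : Type} [Finite W] (H : SimpleGraph W) (g : Pair n → Bool) :
    H.Free (graph g) ↔ ∀ F ∈ forbidden n H, ¬ F ⊆ ({e | g e = true} : Finset (Pair n)) := by
  constructor
  · intro h F hF hsub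
    apply hF.2
    intro hc
    apply h
    refine hc.trans_le (graph_mono fun e he => ?_)
    have : e ∈ F := by simpa using he
    exact (mem_filter.1 (hsub this)).2
  · intro h hc
    obtain ⟨φ⟩ := hc
    have hinj : Function.Injective (Sym2.map φ) := Sym2.map.injective φ.injective
    have hedge : ∀ e ∈ H.edgeSet, ∃ h : ¬ (Sym2.map φ e).IsDiag, g ⟨Sym2.map φ e, h⟩ = true := by
      intro e he
      rw [← mem_edgeSet_graph]
      exact φ.toHom.map_mem_edgeSet he
    set F : Finset (Pair n) := {a | ∃ e ∈ H.edgeSet, Sym2.map φ e = a.1} with hF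
    refine h F ⟨?_, ?_⟩ ?_
    · have h1 : (F : Set (Pair n)).ncard = H.edgeSet.ncard := by
        symm
        refine Set.ncard_congr (fun e he => ⟨Sym2.map φ e, (hedge e he).1⟩) ?_ ?_ ?_
        · intro e he
          rw [hF, coe_filter]
          exact ⟨mem_univ _, e, he, rfl⟩
        · intro a b ha hb hab
          exact hinj (congrArg Subtype.val hab)
        · intro a ha
          rw [hF, coe_filter] at ha
          obtain ⟨-, e, he, h2⟩ := ha
          exact ⟨e, he, Subtype.ext h2⟩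
      rw [← h1, Set.ncard_coe_finset]
    · intro hfree
      apply hfree
      refine ⟨⟨⟨φ, ?_⟩, φ.injective⟩⟩
      intro a b hab
      rw [graph_adj]
      obtain ⟨h1, h2⟩ := hedge s(a, b) hab
      refine ⟨h1, ?_⟩
      rw [decide_eq_true_iff, hF, mem_filter]
      exact ⟨mem_univ _, s(a, b), hab, rfl⟩
    · intro a ha
      rw [hF, mem_filter] at ha
      obtain ⟨-, e, he, h2⟩ := ha
      rw [mem_filter]
      refine ⟨mem_univ _, ?_⟩
      obtain ⟨h3, h4⟩ := hedge e he
      have : a = ⟨Sym2.map φ e, h3⟩ := Subtype.ext h2.symm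
      rw [this]
      exact h4

open Classical in
lemma card_le_ex (n : ℕ) {W : Type} [Finite W] (H : SimpleGraph W) (E : Finset (Pair n))
    (hE : ∀ F ∈ forbidden n H, ¬ F ⊆ E) : #E ≤ SimpleGraph.extremalNumber n H := by
  have h1 : H.Free (graph fun e => decide (e ∈ E)) := by
    rw [free_iff]
    intro F hF hsub
    refine hE F hF (hsub.trans fun e he => ?_)
    simpa using (mem_filter.1 he).2
  have h2 := SimpleGraph.card_edgeFinset_le_extremalNumber h1
  rw [Fintype.card_fin] at h2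
  refine le_trans (le_of_eq ?_) h2
  refine card_bij (fun e _ => e.1) ?_ ?_ ?_
  · intro e he
    rw [SimpleGraph.mem_edgeFinset, mem_edgeSet_graph]
    exact ⟨e.2, by simpa using he⟩
  · intro a _ b _ hab
    exact Subtype.ext hab
  · intro e he
    rw [SimpleGraph.mem_edgeFinset, mem_edgeSet_graph] at he
    obtain ⟨h3, h4⟩ := he
    exact ⟨⟨e, h3⟩, by simpa using h4, rfl⟩

lemma one_le_ex {n : ℕ} (hn : 2 ≤ n) {W : Type} [Finite W] (H : SimpleGraph W)
    (hH : 2 ≤ H.edgeSet.ncard) : 1 ≤ SimpleGraph.extremalNumber n H := by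
  classical
  have hd : ¬ (s((⟨0, by omega⟩ : Fin n), ⟨1, by omega⟩) : Sym2 (Fin n)).IsDiag := by
    simp
  have h := card_le_ex n H {⟨_, hd⟩} (by
    intro F hF hsub
    have h1 := card_le_card hsub
    rw [hF.1, card_singleton] at h1
    omega)
  simpa using h

/-- **Sample complexity of testing `H`-freeness of edge distributions.** For every finite simple
graph `H` with at least two edges (connected or not) and `c = 1 / e(H)`, which lies in `(0, 1)`, and
for every `ε ∈ (0, 1)` there is a constant `C` such that for all `n ≥ 2` the number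
`sam(H-free, ε)`, at which a tester exists, is at most `C * ex(n, H) ^ (1 - c)`. -/
theorem result : ∀ (W : Type) [Finite W] (H : SimpleGraph W), 2 ≤ H.edgeSet.ncard →
    ∃ c : ℝ, c = 1 / H.edgeSet.ncard ∧ 0 < c ∧ c < 1 ∧
      ∀ ε : ℝ, 0 < ε → ε < 1 → ∃ C : ℝ, ∀ n : ℕ, 2 ≤ n →
        (∃ A, IsTester (freeFamily n H) ε (sam (freeFamily n H) ε) A) ∧
        (sam (freeFamily n H) ε : ℝ) ≤ C * (SimpleGraph.extremalNumber n H : ℝ) ^ (1 - c) := by
  classical
  intro W _ H hH
  have hHR : (2 : ℝ) ≤ H.edgeSet.ncard := by exact_mod_cast hH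
  refine ⟨_, rfl, by positivity, ?_, ?_⟩
  · rw [div_lt_one (by linarith)]
    linarith
  intro ε hε0 hε1
  obtain ⟨C, hC⟩ := main hε0 hε1 (t := H.edgeSet.ncard) (by omega)
  refine ⟨C, fun n hn => ?_⟩
  obtain ⟨m, hm0, hm, hdet⟩ := hC (Pair n) (forbidden n H) (SimpleGraph.extremalNumber n H)
    (one_le_ex hn H hH) (fun F hF => hF.1) (card_le_ex n H)
  -- the tester
  let B : (Fin m → Pair n × Bool) → Prop := fun s => ∃ F ∈ forbidden n H, ∀ a ∈ F, ∃ j, s j = (a, true)
  let A : (Fin m → Pair n × Bool) → ℝ := fun s => if B s then 0 else 1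
  have hB : ∀ (f : Pair n → Bool) (x : Fin m → Pair n), B (fun j => (x j, f (x j))) ↔
      Bad (forbidden n H) f x := by
    intro f x
    simp only [B, Bad]
    constructor
    · rintro ⟨F, hF, h⟩
      refine ⟨F, hF, fun a ha => ?_⟩
      obtain ⟨j, hj⟩ := h a ha
      rw [Prod.mk.injEq] at hj
      exact ⟨by rw [← hj.1]; exact hj.2, j, hj.1⟩
    · rintro ⟨F, hF, h⟩
      refine ⟨F, hF, fun a ha => ?_⟩
      obtain ⟨h1, j, hj⟩ := h a ha
      exact ⟨j, by rw [hj, h1]⟩
  have hacc : ∀ (μ : Pair n → ℝ) (f : Pair n → Bool), ∑ a, μ a = 1 →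
      acceptProb A μ f = 1 - ∑ y : Fin m → Pair n, wt μ y *
        (if Bad (forbidden n H) f y then 1 else 0) := by
    intro μ f h1
    rw [eq_sub_iff_add_eq]
    unfold acceptProb
    rw [← sum_add_distrib]
    refine (sum_congr rfl fun x _ => ?_).trans (sum_wt h1 (Fin m))
    simp only [A, hB]
    unfold wt
    split_ifs <;> ring
  have hT : IsTester (freeFamily n H) ε m A := by
    refine ⟨fun s => by simp only [A]; split_ifs <;> norm_num, fun μ h0 h1 f => ⟨?_, ?_⟩⟩
    · intro hf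
      rw [hacc μ f h1, sum_eq_zero, sub_zero]
      · norm_num
      · intro y _
        rw [if_neg, mul_zero]
        rintro ⟨F, hF, h2⟩
        refine (free_iff n H f).1 hf F hF fun e he => ?_
        rw [mem_filter]
        exact ⟨mem_univ _, (h2 e he).1⟩
    · intro hfar
      rw [hacc μ f h1, sub_sub_cancel]
      refine hdet μ f h0 h1 fun E hE => ?_
      refine hfar (fun e => decide (e ∈ E)) ?_
      show H.Free _
      rw [free_iff]
      intro F hF hsub
      refine hE F hF (hsub.trans fun e he => ?_)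
      simpa using (mem_filter.1 he).2
  have hmem : m ∈ {m | 0 < m ∧ ∃ A : (Fin m → Pair n × Bool) → ℝ,
      IsTester (freeFamily n H) ε m A} := ⟨hm0, A, hT⟩
  refine ⟨(Nat.sInf_mem ⟨m, hmem⟩).2, le_trans ?_ hm⟩
  exact_mod_cast Nat.sInf_le hmem

end Pool.Agent.Results.MP_c13ef9_lc.FreenessSamples
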